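import Mathlib
import Pool.Agent.Y57.AK.Stm3

/-! # Project AK: choice of the parameters -/

set_option autoImplicit false

open Finset

namespace Pool.Agent.Y232.AK

open Pool.Agent.Y57.AK

theorem choose_ge (n w : ℕ) : (n + w) ^ w ≤ w ^ w * (n + w).choose w := by
  have e1 : (n + w) ^ w = ∏ _i ∈ range w, (n + w) := by rw [Finset.prod_const, Finset.card_range]
  have e2 : w ^ w = ∏ _i ∈ range w, w := by rw [Finset.prod_const, Finset.card_range]
  have h1 : (n + w) ^ w * w.descFactorial w ≤ w ^ w * (n + w).descFactorial w := by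
    rw [Nat.descFactorial_eq_prod_range, Nat.descFactorial_eq_prod_range, e1, e2,
      ← Finset.prod_mul_distrib, ← Finset.prod_mul_distrib]
    refine Finset.prod_le_prod' fun i hi => ?_
    rw [Finset.mem_range] at hi
    obtain ⟨j, rfl⟩ : ∃ j, w = i + j := ⟨w - i, by omega⟩
    have h2 : i + j - i = j := by omega
    have h3 : n + (i + j) - i = n + j := by omega
    rw [h2, h3]
    nlinarith [Nat.zero_le (n * i)]
  rw [Nat.descFactorial_self, Nat.descFactorial_eq_factorial_mul_choose] at h1
  have h2 : 0 < w.factorial := Nat.factorial_pos w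
  refine Nat.le_of_mul_le_mul_right ?_ h2
  calc (n + w) ^ w * w.factorial ≤ w ^ w * (w.factorial * (n + w).choose w) := h1
    _ = w ^ w * (n + w).choose w * w.factorial := by ring

theorem t_EPS : S_EPS := by
  intro κ c δ hc hδ
  obtain ⟨N, hN⟩ : ∃ N : ℝ, N = (κ : ℝ) + 1 := ⟨_, rfl⟩
  have hN1 : 1 ≤ N := by
    have : (0 : ℝ) ≤ κ := Nat.cast_nonneg κ
    linarith
  have hN0 : 0 < N := by linarith
  obtain ⟨lam, hlam⟩ : ∃ l : ℝ, l = Real.log (1 + 1 / N) := ⟨_, rfl⟩
  have hlam0 : 0 < lam := by
    rw [hlam]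
    refine Real.log_pos ?_
    have : 0 < 1 / N := by positivity
    linarith
  obtain ⟨θ, hθ⟩ : ∃ t : ℝ, t = min (1 / N) (δ * c * lam / 6) := ⟨_, rfl⟩
  have hθ0 : 0 < θ := by
    rw [hθ]
    exact lt_min (by positivity) (by positivity)
  have hθN : θ ≤ 1 / N := hθ ▸ min_le_left _ _
  have hθl : θ ≤ δ * c * lam / 6 := hθ ▸ min_le_right _ _
  have hθ1 : θ ≤ 1 := hθN.trans (by rw [div_le_one hN0]; exact hN1)
  have hlog : 0 ≤ -Real.log θ := by
    have := Real.log_nonpos hθ0.le hθ1
    linarith
  obtain ⟨K, hK⟩ := exists_nat_ge (N + 3 / (c * δ) + 3 * (-Real.log θ) / (δ * c * lam))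
  refine ⟨K, ?_⟩
  intro k hk n w hw a B ha hB hC hx
  have ha0 : 0 < a := by linarith
  have hloga : 0 ≤ Real.log a := Real.log_nonneg ha
  have haδ : 1 ≤ a ^ δ := Real.one_le_rpow ha hδ.le
  rcases Nat.eq_zero_or_pos w with rfl | hw0
  · -- w = 0
    have h1 : a ^ (k + 1) ≤ B ^ (k + 1) := by
      have ht : Filter.Tendsto (fun x : ℝ => B ^ (k + 1) * (1 + x) ^ ((k + 1) * n + 0))
          (nhdsWithin 0 (Set.Ioi 0)) (nhds (B ^ (k + 1))) := by
        have hcont : Continuous (fun x : ℝ => B ^ (k + 1) * (1 + x) ^ ((k + 1) * n + 0)) := by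
          fun_prop
        have h2 := (hcont.tendsto 0).mono_left (nhdsWithin_le_nhds (s := Set.Ioi (0 : ℝ)))
        simpa using h2
      refine ge_of_tendsto ht ?_
      filter_upwards [Ioc_mem_nhdsGT (zero_lt_one : (0 : ℝ) < 1)] with x hx'
      have h3 := hx x hx'.1 hx'.2
      rwa [pow_zero, mul_one] at h3
    have h2 : a ≤ B := (pow_le_pow_iff_left₀ ha0.le hB (Nat.succ_ne_zero k)).1 h1
    calc a ≤ B := h2
      _ = B * 1 := (mul_one B).symm
      _ ≤ B * a ^ δ := mul_le_mul_of_nonneg_left haδ hB
  · -- w ≥ 1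
    have hn0 : 0 < n := by
      rcases Nat.eq_zero_or_pos n with rfl | h
      · omega
      · exact h
    have hnR : (0 : ℝ) < n := by exact_mod_cast hn0
    have hwR : (0 : ℝ) < w := by exact_mod_cast hw0
    have hwn : (w : ℝ) ≤ N * n := by
      have h1 : (w : ℝ) ≤ (κ : ℝ) * n := by exact_mod_cast hw
      have h2 : (κ : ℝ) * n ≤ N * n := mul_le_mul_of_nonneg_right (by rw [hN]; linarith) hnR.le
      linarith
    obtain ⟨q, hq⟩ : ∃ q : ℝ, q = (k : ℝ) + 1 := ⟨_, rfl⟩
    have hqK : N + 3 / (c * δ) + 3 * (-Real.log θ) / (δ * c * lam) ≤ q := by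
      have h1 : (K : ℝ) ≤ k := by exact_mod_cast hk
      linarith
    have hp1 : 0 < 3 / (c * δ) := by positivity
    have hp2 : 0 ≤ 3 * (-Real.log θ) / (δ * c * lam) := by positivity
    have hqN : N ≤ q := by linarith
    have hq1 : 3 / (c * δ) ≤ q := by linarith
    have hq2 : 3 * (-Real.log θ) / (δ * c * lam) ≤ q := by linarith
    have hq0 : 0 < q := by linarith
    obtain ⟨Λ, hΛ⟩ : ∃ l : ℝ, l = Real.log ((n : ℝ) + w) - Real.log w := ⟨_, rfl⟩
    have hΛl : lam ≤ Λ := by
      rw [hΛ, hlam, ← Real.log_div (by positivity) hwR.ne']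
      refine Real.log_le_log (by positivity) ?_
      rw [add_div, div_self hwR.ne']
      have : 1 / N ≤ (n : ℝ) / w := by
        rw [div_le_div_iff₀ hN0 hwR]
        linarith
      linarith
    -- lower bound for log a
    have hcw : c * (w * Λ) ≤ Real.log a := by
      have h1 : ((n : ℝ) + w) ^ w ≤ (w : ℝ) ^ w * ((n + w).choose w : ℕ) := by
        exact_mod_cast choose_ge n w
      have hCpos : (0 : ℝ) < ((n + w).choose w : ℕ) := by
        exact_mod_cast Nat.choose_pos (Nat.le_add_left w n)
      have h2 := Real.log_le_log (by positivity) h1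
      rw [Real.log_pow, Real.log_mul (by positivity) hCpos.ne', Real.log_pow] at h2
      have h3 := Real.log_le_log (Real.rpow_pos_of_pos hCpos c) hC
      rw [Real.log_rpow hCpos] at h3
      have h4 : w * Λ ≤ Real.log (((n + w).choose w : ℕ) : ℝ) := by
        rw [hΛ, mul_sub]
        linarith
      exact (mul_le_mul_of_nonneg_left h4 hc.le).trans h3
    have hcl : c * (w * lam) ≤ Real.log a :=
      (mul_le_mul_of_nonneg_left (mul_le_mul_of_nonneg_left hΛl hwR.le) hc.le).trans hcw
    -- the choice of x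
    obtain ⟨x, hxd⟩ : ∃ x : ℝ, x = θ * w / n := ⟨_, rfl⟩
    have hx0 : 0 < x := by rw [hxd]; positivity
    have hnx : n * x = θ * w := by rw [hxd]; field_simp
    have hx1 : x ≤ 1 := by
      rw [hxd, div_le_one hnR]
      have h1 : θ * w ≤ (1 / N) * w := mul_le_mul_of_nonneg_right hθN hwR.le
      have h2 : (1 / N) * w ≤ n := by
        rw [one_div, inv_mul_le_iff₀ hN0]
        exact hwn
      linarith
    have hmain := hx x hx0 hx1
    have hBpos : 0 < B := by
      rcases hB.lt_or_eq with h | h
      · exact h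
      · rw [← h, zero_pow (Nat.succ_ne_zero k), zero_mul] at hmain
        have : 0 < a ^ (k + 1) * x ^ w := by positivity
        linarith
    have hlg := Real.log_le_log (by positivity) hmain
    rw [Real.log_mul (by positivity) (by positivity), Real.log_mul (by positivity) (by positivity),
      Real.log_pow, Real.log_pow, Real.log_pow, Real.log_pow] at hlg
    push_cast at hlg
    rw [← hq] at hlg
    have hl1 : Real.log (1 + x) ≤ x := by
      have := Real.log_le_sub_one_of_pos (show 0 < 1 + x by linarith)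
      linarith
    have hlx : -Real.log x ≤ Λ + -Real.log θ := by
      rw [hxd, Real.log_div (by positivity) hnR.ne', Real.log_mul hθ0.ne' hwR.ne', hΛ]
      have : Real.log (n : ℝ) ≤ Real.log ((n : ℝ) + w) := Real.log_le_log hnR (by linarith)
      linarith
    -- the three error terms
    have hE1 : (q * n + w) * x ≤ 2 * q * (θ * w) := by
      have h1 : w * x ≤ q * (θ * w) := by
        calc w * x ≤ (N * n) * x := mul_le_mul_of_nonneg_right hwn hx0.le
          _ = N * (θ * w) := by rw [mul_assoc, hnx]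
          _ ≤ q * (θ * w) := mul_le_mul_of_nonneg_right hqN (by positivity)
      calc (q * n + w) * x = q * (n * x) + w * x := by ring
        _ ≤ q * (θ * w) + q * (θ * w) := by rw [hnx]; linarith
        _ = 2 * q * (θ * w) := by ring
    have hE1' : 2 * q * (θ * w) ≤ q * (δ / 3 * Real.log a) := by
      have h1 : θ * w ≤ δ * c * lam / 6 * w := mul_le_mul_of_nonneg_right hθl hwR.le
      have h2 : δ / 3 * (c * (w * lam)) ≤ δ / 3 * Real.log a :=
        mul_le_mul_of_nonneg_left hcl (by positivity)
      have h3 : 2 * (θ * w) ≤ δ / 3 * Real.log a := by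
        have h4 : 2 * (δ * c * lam / 6 * w) = δ / 3 * (c * (w * lam)) := by ring
        linarith
      calc 2 * q * (θ * w) = q * (2 * (θ * w)) := by ring
        _ ≤ q * (δ / 3 * Real.log a) := mul_le_mul_of_nonneg_left h3 hq0.le
    have hE2 : w * Λ ≤ q * (δ / 3 * Real.log a) := by
      have h1 : w * Λ ≤ Real.log a / c := by
        rw [le_div_iff₀ hc]
        linarith
      have h2 : 1 ≤ q * (c * δ / 3) := by
        have := (div_le_iff₀ (by positivity : 0 < c * δ)).1 hq1
        linarith
      have h3 : Real.log a / c ≤ q * (δ / 3 * Real.log a) := by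
        rw [div_le_iff₀ hc]
        calc Real.log a = 1 * Real.log a := (one_mul _).symm
          _ ≤ (q * (c * δ / 3)) * Real.log a := mul_le_mul_of_nonneg_right h2 hloga
          _ = q * (δ / 3 * Real.log a) * c := by ring
      exact h1.trans h3
    have hE3 : w * (-Real.log θ) ≤ q * (δ / 3 * Real.log a) := by
      have h1 : 3 * (-Real.log θ) ≤ q * (δ * c * lam) :=
        (div_le_iff₀ (by positivity : 0 < δ * c * lam)).1 hq2
      have h2 : -Real.log θ ≤ q * (δ / 3 * (c * lam)) := by
        have h4 : q * (δ / 3 * (c * lam)) = q * (δ * c * lam) / 3 := by ring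
        rw [h4]
        linarith
      calc w * (-Real.log θ) ≤ w * (q * (δ / 3 * (c * lam))) :=
            mul_le_mul_of_nonneg_left h2 hwR.le
        _ = q * (δ / 3) * (c * (w * lam)) := by ring
        _ ≤ q * (δ / 3) * Real.log a := mul_le_mul_of_nonneg_left hcl (by positivity)
        _ = q * (δ / 3 * Real.log a) := by ring
    have hqn : 0 ≤ q * n + w := by positivity
    have hS : q * Real.log a ≤ q * Real.log B + q * (δ * Real.log a) := by
      have h1 : (q * n + w) * Real.log (1 + x) ≤ (q * n + w) * x :=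
        mul_le_mul_of_nonneg_left hl1 hqn
      have h2 : w * (-Real.log x) ≤ w * (Λ + -Real.log θ) :=
        mul_le_mul_of_nonneg_left hlx hwR.le
      have h3 : w * (Λ + -Real.log θ) = w * Λ + w * (-Real.log θ) := by ring
      have h4 : q * (δ * Real.log a) = q * (δ / 3 * Real.log a) + q * (δ / 3 * Real.log a) +
          q * (δ / 3 * Real.log a) := by ring
      rw [h4]
      linarith
    have hfin : Real.log a ≤ Real.log B + δ * Real.log a := by
      have h1 : q * Real.log a ≤ q * (Real.log B + δ * Real.log a) := by linarith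
      exact le_of_mul_le_mul_left h1 hq0
    have haδ0 : 0 < a ^ δ := Real.rpow_pos_of_pos ha0 δ
    rw [← Real.log_le_log_iff ha0 (by positivity), Real.log_mul hBpos.ne' haδ0.ne',
      Real.log_rpow ha0]
    exact hfin

end Pool.Agent.Y232.AK
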