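import Mathlib
import Pool.Agent.Y57.AK.Stm2

/-! # Project AK: the version for integers, progressions (adapted from helper70's AK-INTG) -/

set_option autoImplicit false

open Finset

namespace Pool.Agent.Y232.AK

open Pool.Agent.Y57.AK

theorem t_INTG2 : S_TEN → S_GAP → S_INTG2 := by
  classical
  intro hTEN hGAP n k H L q W g Rs D y hkH hdis hq hRs hD hW
  have hD' : ∀ d : ℤ, ∃ r : Fin n → ℕ, d ∈ D → (∀ i, r i ∈ Rs i) ∧
      d = ∑ i, (r i : ℤ) * g i := by
    intro d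
    by_cases h : d ∈ D
    · obtain ⟨r, hr⟩ := hD d h
      exact ⟨r, fun _ => hr⟩
    · exact ⟨0, fun h' => absurd h' h⟩
  choose R hR using hD'
  obtain ⟨D', hsub, Y, hcard, hproj⟩ := hGAP n k H L g D R y hkH hdis
    (fun d hd => ⟨fun i => (hRs i).2 _ ((hR d hd).1 i), (hR d hd).2⟩)
  obtain ⟨ρ, hρ⟩ : ∃ ρ : ℤ → Fin n → ℚ,
      ρ = fun (d : ℤ) (i : Fin n) => ((R d i : ℕ) : ℚ) := ⟨_, rfl⟩
  have hinj : Set.InjOn ρ (D' : Set ℤ) := by
    intro d hd d' hd' h
    rw [(hR d (hsub hd)).2, (hR d' (hsub hd')).2]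
    refine Finset.sum_congr rfl fun i _ => ?_
    have h1 := congrFun h i
    rw [hρ] at h1
    have h1' : ((R d i : ℕ) : ℚ) = ((R d' i : ℕ) : ℚ) := h1
    have h2 : R d i = R d' i := by exact_mod_cast h1'
    rw [h2]
  obtain ⟨γ, hγ⟩ : ∃ γ : (Fin n → ℚ) → ℤ, ∀ d ∈ D', γ (ρ d) = d :=
    ⟨Function.invFunOn ρ (D' : Set ℤ), fun d hd => hinj.leftInvOn_invFunOn hd⟩
  obtain ⟨v, hv⟩ : ∃ v : (Fin n → ℚ) → (Fin n → ℚ), v = fun p i => (Y (γ p) i : ℚ) - p i :=
    ⟨_, rfl⟩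
  have hjinj : Function.Injective (fun j : ℕ => 1 / ((j : ℚ) + 1)) := by
    intro a b h
    have ha : ((a : ℚ) + 1) ≠ 0 := by positivity
    have hb : ((b : ℚ) + 1) ≠ 0 := by positivity
    have h1 : ((a : ℚ) + 1) = (b : ℚ) + 1 := by
      have h2 : 1 / ((a : ℚ) + 1) = 1 / ((b : ℚ) + 1) := h
      field_simp at h2
      linarith
    have h3 : (a : ℚ) = b := by linarith
    exact_mod_cast h3
  have hJc : ((range (k + 1)).image (fun j : ℕ => 1 / ((j : ℚ) + 1))).card = k + 1 := by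
    rw [Finset.card_image_of_injective _ hjinj, Finset.card_range]
  have hJn : ((range (k + 1)).image (fun j : ℕ => 1 / ((j : ℚ) + 1))).Nonempty :=
    ⟨1 / (((0 : ℕ) : ℚ) + 1), Finset.mem_image_of_mem _ (Finset.mem_range.2 (Nat.succ_pos k))⟩
  have h3 : ∀ s ∈ (range (k + 1)).image (fun j : ℕ => 1 / ((j : ℚ) + 1)),
      ((D'.image ρ).image fun d i => d i + s * v d i).card ≤ W := by
    intro s hs
    obtain ⟨j, hj, rfl⟩ := Finset.mem_image.1 hs
    have hjk : j ≤ k := Nat.lt_succ_iff.1 (Finset.mem_range.1 hj)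
    have e : ((D'.image ρ).image fun d i => d i + (1 / ((j : ℚ) + 1)) * v d i) =
        (D'.image fun d => fun i : Fin n => Y d i + (j : ℤ) * (R d i : ℤ)).image
          (fun w i => ((w i : ℤ) : ℚ) / ((j : ℚ) + 1)) := by
      rw [Finset.image_image, Finset.image_image]
      refine Finset.image_congr fun d hd => ?_
      funext i
      change ρ d i + (1 / ((j : ℚ) + 1)) * v (ρ d) i =
        ((Y d i + (j : ℤ) * (R d i : ℤ) : ℤ) : ℚ) / ((j : ℚ) + 1)
      rw [hv]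
      change ρ d i + (1 / ((j : ℚ) + 1)) * ((Y (γ (ρ d)) i : ℚ) - ρ d i) = _
      rw [hγ d hd, hρ]
      have hj0 : ((j : ℚ) + 1) ≠ 0 := by positivity
      push_cast
      field_simp
      ring
    rw [e]
    exact Finset.card_image_le.trans ((hproj j hjk).trans (hW j hjk))
  have h1 : ∀ i : Fin n, ((Rs i).image (fun r : ℕ => (r : ℚ))).card ≤ q := fun i =>
    Finset.card_image_le.trans (hRs i).1
  have h2 : ∀ d ∈ D'.image ρ, ∀ i : Fin n, d i ∈ (Rs i).image (fun r : ℕ => (r : ℚ)) := by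
    intro d hd i
    obtain ⟨e, he, rfl⟩ := Finset.mem_image.1 hd
    rw [hρ]
    exact Finset.mem_image_of_mem _ ((hR e (hsub he)).1 i)
  have h4 := hTEN (Fin n) (fun i => (Rs i).image (fun r : ℕ => (r : ℚ))) q W (D'.image ρ) v _ h1 h2
    hq hJn h3
  rw [hJc, Finset.card_image_of_injOn hinj, Fintype.card_fin] at h4
  have h5 : k + 1 + q - 1 = k + q := by omega
  rw [h5] at h4
  calc D.card * ((L - k * H) * (k + 1)) ^ n
      = (D.card * (L - k * H) ^ n) * (k + 1) ^ n := by rw [mul_pow]; ring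
    _ ≤ (D'.card * (L + k * H) ^ n) * (k + 1) ^ n := Nat.mul_le_mul_right _ hcard
    _ = (D'.card * (k + 1) ^ n) * (L + k * H) ^ n := by ring
    _ ≤ (W * (k + q) ^ n) * (L + k * H) ^ n := Nat.mul_le_mul_right _ h4
    _ = W * ((L + k * H) * (k + q)) ^ n := by rw [mul_pow]; ring

end Pool.Agent.Y232.AK
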